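import Pool.Agent.P.MP_d76e6a_co.YAll
import Pool.Agent.P.MP_d76e6a_co.XZal

/-!
Bellman's lost-in-a-forest problem for triangles: on the region of each template the shortest
escape path is the symmetric convex curve of segments and arcs given by the system of the template.
-/

namespace Pool.Agent.Old.MP_d76e6a_co.ConvexArcs

open Real EuclideanGeometry Pool.Agent.P.MP_d76e6a_co

theorem result (X Y Z : ℂ) (hT : AffineIndependent ℝ ![X, Y, Z]) (A B h : ℝ)
    (hA : A = ∠ Y X Z) (hB : B = ∠ X Y Z) (hh : h = dist X Z * sin A) (T : Tmpl)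
    (hR : Region T A B) :
    ∃ x : Sol, Sys T A B x ∧
      escapeLength (convexHull ℝ {X, Y, Z}) = ENNReal.ofReal (len T A B x * h) ∧
      escapeLength (interior (convexHull ℝ {X, Y, Z})) = ENNReal.ofReal (len T A B x * h) ∧
      IsEscapePath (interior (convexHull ℝ {X, Y, Z})) (curve T A B x h) ∧
      pathLength (curve T A B x h) = ENNReal.ofReal (len T A B x * h) ∧
      ∀ w, h < w → IsEscapePath (convexHull ℝ {X, Y, Z}) (curve T A B x w) := by
  rcases hR with ⟨rfl, hAB, z1, z2⟩ | ⟨c, hc, p, q, hpq, hs⟩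
  · exact ⟨zSol, zal_result hT hA hB hh hAB z1 z2⟩
  · have hnc : ¬Collinear ℝ {X, Y, Z} := affineIndependent_iff_not_collinear_set.1 hT
    have A0 : 0 < A := hA ▸ angle_pos_of_not_collinear (by rwa [Set.insert_comm] at hnc)
    have B0 : 0 < B := hB ▸ angle_pos_of_not_collinear hnc
    obtain ⟨x, g⟩ := cg_strip (table_ok (T, c) hc p q hpq) hs A0 B0
    exact ⟨x, g.sys, g.result hT hA hB hh⟩

end Pool.Agent.Old.MP_d76e6a_co.ConvexArcs
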